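import Pool.Agent.W425.MM.Defs2
import Mathlib.RingTheory.Smooth.Field
import Mathlib.RingTheory.Etale.Kaehler
import Mathlib.RingTheory.Etale.Field
import Mathlib.Algebra.MvPolynomial.PDeriv

set_option autoImplicit false

/-! Project MM (helper425): derivations dual to algebraically independent elements. -/

namespace Pool.Agent.W790.MM

open Pool.Agent.W425.MM TensorProduct

/-- a derivation of a subalgebra extends to a formally etale algebra -/
theorem exists_ext {F S L : Type} [CommRing F] [CommRing S] [CommRing L] [Algebra F S] [Algebra F L]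
    [Algebra S L] [IsScalarTower F S L] [Algebra.FormallyEtale S L] (D0 : Derivation F S L) :
    ∃ D : Derivation F L L, ∀ s : S, D (algebraMap S L s) = D0 s := by
  let l : (L ⊗[S] Ω[S⁄F]) →ₗ[L] L := D0.liftKaehlerDifferential.liftBaseChange L
  let m : Ω[L⁄F] →ₗ[L] L :=
    l.comp (KaehlerDifferential.tensorKaehlerEquivOfFormallyEtale F S L).symm.toLinearMap
  refine ⟨m.compDer (KaehlerDifferential.D F L), fun s => ?_⟩
  show l ((KaehlerDifferential.tensorKaehlerEquivOfFormallyEtale F S L).symm
    (KaehlerDifferential.D F L (algebraMap S L s))) = D0 s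
  rw [KaehlerDifferential.tensorKaehlerEquivOfFormallyEtale_symm_D_algebraMap,
    LinearMap.liftBaseChange_tmul, one_smul, Derivation.liftKaehlerDifferential_comp_D]

/-- a derivation is transported by an isomorphism -/
theorem exists_conj {F S T : Type} [CommRing F] [CommRing S] [CommRing T] [Algebra F S]
    [Algebra F T] (φ : S ≃ₐ[F] T) (D : Derivation F S S) :
    ∃ D' : Derivation F T T, ∀ s : S, D' (φ s) = φ (D s) := by
  refine ⟨Derivation.mk' ((φ.toLinearMap.comp (D : S →ₗ[F] S)).comp φ.symm.toLinearMap) ?_, ?_⟩
  · intro a b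
    show φ (D (φ.symm (a * b))) = a • φ (D (φ.symm b)) + b • φ (D (φ.symm a))
    rw [map_mul, Derivation.leibniz, map_add, smul_eq_mul, smul_eq_mul, map_mul, map_mul,
      AlgEquiv.apply_symm_apply, AlgEquiv.apply_symm_apply, smul_eq_mul, smul_eq_mul]
  · intro s
    show φ (D (φ.symm (φ s))) = φ (D s)
    rw [AlgEquiv.symm_apply_apply]

open scoped IntermediateField.algebraAdjoinAdjoin in
theorem etale {F L ι : Type} [Field F] [CharZero F] [Field L] [Algebra F L] {v : ι → L}
    (hv : IsTranscendenceBasis F v) :
    Algebra.FormallyEtale (Algebra.adjoin F (Set.range v)) L := by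
  have h1 : Algebra.FormallyEtale (Algebra.adjoin F (Set.range v))
      (IntermediateField.adjoin F (Set.range v)) :=
    .of_isLocalization (nonZeroDivisors _)
  have h2 : Algebra.IsAlgebraic (IntermediateField.adjoin F (Set.range v)) L :=
    hv.isAlgebraic_field
  have h3 : CharZero (IntermediateField.adjoin F (Set.range v)) :=
    charZero_of_injective_algebraMap
      (algebraMap F (IntermediateField.adjoin F (Set.range v))).injective
  have h4 : Algebra.IsSeparable (IntermediateField.adjoin F (Set.range v)) L := inferInstance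
  have h5 : Algebra.FormallyEtale (IntermediateField.adjoin F (Set.range v)) L :=
    Algebra.FormallyEtale.of_isSeparable _ L
  exact .comp _ (IntermediateField.adjoin F (Set.range v)) _

theorem taskGN1 : TaskGN1 := by
  intro F L _ _ _ _ r c hc j0
  classical
  obtain ⟨t, hct, ht⟩ := exists_isTranscendenceBasis_superset (R := F) (s := Set.range c)
    hc.coe_range
  have := etale ht
  have hti : AlgebraicIndependent F ((↑) : t → L) := ht.1
  have mem : ∀ j, c j ∈ t := fun j => hct ⟨j, rfl⟩
  obtain ⟨D1, hD1⟩ := exists_conj hti.aevalEquiv (MvPolynomial.pderiv (⟨c j0, mem j0⟩ : t))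
  obtain ⟨D, hD⟩ := exists_ext (L := L)
    ((Algebra.linearMap (Algebra.adjoin F (Set.range ((↑) : t → L))) L).compDer D1)
  have key : ∀ j, D (c j) = algebraMap (Algebra.adjoin F (Set.range ((↑) : t → L))) L
      (hti.aevalEquiv (MvPolynomial.pderiv (⟨c j0, mem j0⟩ : t)
        (MvPolynomial.X (⟨c j, mem j⟩ : t)))) := by
    intro j
    have h1 : c j = algebraMap (Algebra.adjoin F (Set.range ((↑) : t → L))) L
        (hti.aevalEquiv (MvPolynomial.X (⟨c j, mem j⟩ : t))) := by
      rw [hti.algebraMap_aevalEquiv, MvPolynomial.aeval_X]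
    refine (congrArg D h1).trans ?_
    rw [hD]
    show algebraMap _ L (D1 _) = _
    rw [hD1]
  refine ⟨D, ?_, fun j hj => ?_⟩
  · rw [key j0]
    simp
  · rw [key j, MvPolynomial.pderiv_X_of_ne]
    · simp
    · intro h
      apply hj
      have := congrArg Subtype.val h
      exact hc.injective this

end Pool.Agent.W790.MM
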